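import Pool.Agent.helper73.ASU.Spec

set_option autoImplicit false

namespace Pool.Agent.ASU

open Finset

theorem AS1_prod {ι : Type} (s : Finset ι) (f : ι → ℤ) (n : ℕ) :
    jacobiSym (∏ i ∈ s, f i) n = ∏ i ∈ s, jacobiSym (f i) n := by
  classical
  induction s using Finset.induction_on with
  | empty => simp
  | insert a s ha ih => rw [Finset.prod_insert ha, Finset.prod_insert ha, jacobiSym.mul_left, ih]

theorem AS1_TT (n N k : ℕ) : (TT (JM n) (range N) (range N) k).re =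
    ∑ a ∈ wd k (range N), ∑ b ∈ wd k (range N), ((jacobiSym (DD a b) n : ℤ) : ℝ) := by
  have h : TT (JM n) (range N) (range N) k =
      ((∑ a ∈ wd k (range N), ∑ b ∈ wd k (range N), jacobiSym (DD a b) n : ℤ) : ℂ) := by
    unfold TT
    rw [Int.cast_sum]
    refine Finset.sum_congr rfl (fun a _ => ?_)
    rw [Int.cast_sum]
    refine Finset.sum_congr rfl (fun b _ => ?_)
    unfold DD
    rw [AS1_prod, Int.cast_prod]
    refine Finset.prod_congr rfl (fun i _ => ?_)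
    unfold JM
    rw [jacobiSym.mul_left, Int.cast_mul]
    congr 1
    simp [rot]
  rw [h, Complex.intCast_re]
  push_cast
  rfl

theorem AS1_F (X : ℕ) : ((range (X + 1)).filter Odd) ⊆ Finset.Icc 1 X := by
  intro n hn
  rw [Finset.mem_filter, Finset.mem_range] at hn
  rw [Finset.mem_Icc]
  have : n ≠ 0 := by
    rintro rfl
    exact absurd hn.2 (by decide)
  omega

theorem AS1_zero (X : ℕ) : JS 0 X ≤ 1 := by
  unfold JS
  calc ∑ n ∈ (range (X + 1)).filter Odd, jacobiSym 0 n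
      ≤ ∑ n ∈ (range (X + 1)).filter Odd, (if n = 1 then (1 : ℤ) else 0) := by
        refine Finset.sum_le_sum (fun n hn => ?_)
        have h1 := Finset.mem_Icc.1 (AS1_F X hn)
        by_cases h : n = 1
        · rw [if_pos h, h]
          simp
        · rw [if_neg h, jacobiSym.zero_left (by omega)]
    _ ≤ 1 := by
        rw [Finset.sum_ite_eq']
        split_ifs <;> simp

theorem AS1_triv (D : ℤ) (X : ℕ) : JS D X ≤ X := by
  unfold JS
  calc ∑ n ∈ (range (X + 1)).filter Odd, jacobiSym D n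
      ≤ ∑ n ∈ (range (X + 1)).filter Odd, (1 : ℤ) := by
        refine Finset.sum_le_sum (fun n _ => ?_)
        rcases jacobiSym.trichotomy D n with h | h | h <;> rw [h] <;> norm_num
    _ ≤ X := by
        rw [Finset.sum_const, nsmul_eq_mul, mul_one]
        have h := Finset.card_le_card (AS1_F X)
        rw [Nat.card_Icc] at h
        have h2 : ((range (X + 1)).filter Odd).card ≤ X := by omega
        exact_mod_cast h2

theorem AS1_abs {k N : ℕ} (a b : Fin k → ℕ) (ha : ∀ j, a j < N) (hb : ∀ j, b j < N) :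
    |(DD a b : ℝ)| ≤ ((N : ℝ) ^ (2 * k)) := by
  have h1 : ∀ x y : ℕ, x < N → y < N → |((((x : ℤ) - y : ℤ)) : ℝ)| ≤ (N : ℝ) := by
    intro x y hx hy
    have h2 : |((x : ℤ) - y)| ≤ (N : ℤ) := by
      rw [abs_le]; constructor <;> omega
    calc |((((x : ℤ) - y : ℤ)) : ℝ)| = ((|((x : ℤ) - y)| : ℤ) : ℝ) := by rw [Int.cast_abs]
      _ ≤ ((N : ℤ) : ℝ) := by exact_mod_cast h2
      _ = (N : ℝ) := by norm_cast
  have h3 : ((DD a b : ℤ) : ℝ) = ∏ i : Fin k, ((((a i : ℤ) - b i : ℤ) : ℝ) * ((((rot a i : ℕ) : ℤ) - b i : ℤ) : ℝ)) := by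
    unfold DD
    rw [Int.cast_prod]
    refine Finset.prod_congr rfl (fun i _ => ?_)
    rw [Int.cast_mul]
  rw [h3, Finset.abs_prod]
  calc ∏ i : Fin k, |((((a i : ℤ) - b i : ℤ) : ℝ) * ((((rot a i : ℕ) : ℤ) - b i : ℤ) : ℝ))|
      ≤ ∏ _i : Fin k, ((N : ℝ) * N) := by
        refine Finset.prod_le_prod (fun i _ => abs_nonneg _) (fun i _ => ?_)
        rw [abs_mul]
        exact mul_le_mul (h1 _ _ (ha i) (hb i)) (h1 _ _ (ha _) (hb i)) (abs_nonneg _) (Nat.cast_nonneg _)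
    _ = (N : ℝ) ^ (2 * k) := by
        rw [Finset.prod_const, Finset.card_univ, Fintype.card_fin, pow_mul, sq]

theorem AS1 (hSQ4 : SQ4_stmt) (hPVD : PVD_stmt) : AS1_stmt := by
  classical
  intro k hk ε hε
  have hkR : (0 : ℝ) < k := by exact_mod_cast hk
  obtain ⟨C1, hC1, hS⟩ := hSQ4 k hk ε hε
  obtain ⟨C2, hC2, hP⟩ := hPVD (ε / (2 * k)) (by positivity)
  refine ⟨C1 + C2 + 1, by positivity, ?_⟩
  intro N X hN hX
  have hNR : (1 : ℝ) ≤ N := by exact_mod_cast hN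
  have hN0 : (0 : ℝ) < N := by linarith
  have hXR : (1 : ℝ) ≤ X := by exact_mod_cast hX
  set P := wd k (range N) ×ˢ wd k (range N) with hPdef
  have hmem : ∀ v ∈ P, (∀ j, v.1 j < N) ∧ ∀ j, v.2 j < N := by
    intro v hv
    rw [hPdef, Finset.mem_product, Fintype.mem_piFinset, Fintype.mem_piFinset] at hv
    exact ⟨fun j => Finset.mem_range.1 (hv.1 j), fun j => Finset.mem_range.1 (hv.2 j)⟩
  have hcard : (P.card : ℝ) = (N : ℝ) ^ (2 * k) := by
    rw [hPdef, Finset.card_product, Fintype.card_piFinset_const, Finset.card_range]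
    push_cast
    ring
  have hsum : ∑ n ∈ (range (X + 1)).filter Odd, (TT (JM n) (range N) (range N) k).re =
      ∑ v ∈ P, ((JS (DD v.1 v.2) X : ℤ) : ℝ) := by
    have h1 : ∀ n ∈ (range (X + 1)).filter Odd, (TT (JM n) (range N) (range N) k).re =
        ∑ v ∈ P, ((jacobiSym (DD v.1 v.2) n : ℤ) : ℝ) := by
      intro n _
      rw [AS1_TT, hPdef, Finset.sum_product]
    rw [Finset.sum_congr rfl h1, Finset.sum_comm]
    refine Finset.sum_congr rfl (fun v _ => ?_)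
    unfold JS
    rw [Int.cast_sum]
  set S := P.filter (fun v => DD v.1 v.2 ≠ 0 ∧ IsSquare (DD v.1 v.2)) with hSdef
  have hSc : (S.card : ℝ) ≤ C1 * (N : ℝ) ^ ((k : ℝ) + 1 + ε) := by
    apply hS N hN S
    intro v hv
    rw [hSdef, Finset.mem_filter] at hv
    have := hmem v hv.1
    exact ⟨this.1, this.2, hv.2.1, hv.2.2⟩
  have hterm : ∀ v ∈ P, ((JS (DD v.1 v.2) X : ℤ) : ℝ) ≤ 1 + (if DD v.1 v.2 ≠ 0 ∧ IsSquare (DD v.1 v.2) then (X : ℝ) else 0) +
      C2 * (N : ℝ) ^ ((k : ℝ) + ε) := by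
    intro v hv
    obtain ⟨hv1, hv2⟩ := hmem v hv
    have hpos : 0 ≤ C2 * (N : ℝ) ^ ((k : ℝ) + ε) := by positivity
    by_cases h0 : DD v.1 v.2 = 0
    · rw [if_neg (fun h => h.1 h0), h0]
      have h1 : ((JS 0 X : ℤ) : ℝ) ≤ 1 := by exact_mod_cast AS1_zero X
      linarith
    · by_cases hsq : IsSquare (DD v.1 v.2)
      · rw [if_pos ⟨h0, hsq⟩]
        have h1 : ((JS (DD v.1 v.2) X : ℤ) : ℝ) ≤ X := by exact_mod_cast AS1_triv (DD v.1 v.2) X
        linarith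
      · rw [if_neg (fun h => hsq h.2)]
        have h1 := hP (DD v.1 v.2) h0 hsq X
        have h2 : |((DD v.1 v.2 : ℤ) : ℝ)| ^ (1 / 2 + ε / (2 * k)) ≤ (N : ℝ) ^ ((k : ℝ) + ε) := by
          calc |((DD v.1 v.2 : ℤ) : ℝ)| ^ (1 / 2 + ε / (2 * k)) ≤
                ((N : ℝ) ^ (2 * k)) ^ (1 / 2 + ε / (2 * k)) :=
                Real.rpow_le_rpow (abs_nonneg _) (AS1_abs v.1 v.2 hv1 hv2) (by positivity)
            _ = (N : ℝ) ^ ((k : ℝ) + ε) := by
                rw [← Real.rpow_natCast, ← Real.rpow_mul hN0.le]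
                congr 1
                push_cast
                field_simp
        have h3 : ((JS (DD v.1 v.2) X : ℤ) : ℝ) ≤ C2 * (N : ℝ) ^ ((k : ℝ) + ε) :=
          (le_abs_self _).trans (h1.trans (mul_le_mul_of_nonneg_left h2 hC2.le))
        linarith
  rw [hsum]
  have e1 : (N : ℝ) ^ (2 * k) * (N : ℝ) ^ ((k : ℝ) + ε) = (N : ℝ) ^ (3 * (k : ℝ) + ε) := by
    rw [← Real.rpow_natCast, ← Real.rpow_add hN0]
    congr 1
    push_cast
    ring
  have e2 : (N : ℝ) ^ (2 * k) ≤ (N : ℝ) ^ (3 * (k : ℝ) + ε) := by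
    rw [← e1]
    have : (1 : ℝ) ≤ (N : ℝ) ^ ((k : ℝ) + ε) := Real.one_le_rpow hNR (by positivity)
    nlinarith [pow_pos hN0 (2 * k)]
  have hA : (0 : ℝ) ≤ (X : ℝ) * (N : ℝ) ^ ((k : ℝ) + 1 + ε) := by positivity
  have hB : (0 : ℝ) ≤ (N : ℝ) ^ (3 * (k : ℝ) + ε) := by positivity
  calc ∑ v ∈ P, ((JS (DD v.1 v.2) X : ℤ) : ℝ)
      ≤ ∑ v ∈ P, (1 + (if DD v.1 v.2 ≠ 0 ∧ IsSquare (DD v.1 v.2) then (X : ℝ) else 0) +
        C2 * (N : ℝ) ^ ((k : ℝ) + ε)) := Finset.sum_le_sum hterm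
    _ = (P.card : ℝ) + (S.card : ℝ) * X + (P.card : ℝ) * (C2 * (N : ℝ) ^ ((k : ℝ) + ε)) := by
        rw [Finset.sum_add_distrib, Finset.sum_add_distrib, Finset.sum_const, Finset.sum_const,
          ← Finset.sum_filter, Finset.sum_const, nsmul_eq_mul, nsmul_eq_mul, nsmul_eq_mul, mul_one]
    _ = (N : ℝ) ^ (2 * k) + (S.card : ℝ) * X + C2 * (N : ℝ) ^ (3 * (k : ℝ) + ε) := by
        rw [hcard, ← e1]; ring
    _ ≤ (N : ℝ) ^ (3 * (k : ℝ) + ε) + (C1 * (N : ℝ) ^ ((k : ℝ) + 1 + ε)) * X + C2 * (N : ℝ) ^ (3 * (k : ℝ) + ε) := by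
        have := mul_le_mul_of_nonneg_right hSc (by linarith : (0 : ℝ) ≤ (X : ℝ))
        linarith
    _ ≤ (C1 + C2 + 1) * ((X : ℝ) * (N : ℝ) ^ ((k : ℝ) + 1 + ε) + (N : ℝ) ^ (3 * (k : ℝ) + ε)) := by
        nlinarith [mul_nonneg hC1.le hB, mul_nonneg hC2.le hA]

end Pool.Agent.ASU
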