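import Pool.Agent.helper73.ASU.Spec

set_option autoImplicit false

namespace Pool.Agent.ASU

open Finset

theorem SQA_fac (n q : ℕ) : (sfp n).factorization q = n.factorization q % 2 := by
  unfold sfp
  rw [Nat.factorization_prod_apply (by
    intro x hx
    exact (Nat.prime_of_mem_primeFactors (Finset.mem_filter.1 hx).1).ne_zero)]
  have h1 : ∀ p ∈ n.primeFactors.filter (fun q => Odd (n.factorization q)),
      p.factorization q = if p = q then 1 else 0 := by
    intro p hp
    have hpp : p.Prime := Nat.prime_of_mem_primeFactors (Finset.mem_filter.1 hp).1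
    rw [hpp.factorization, Finsupp.single_apply]
  rw [Finset.sum_congr rfl h1, Finset.sum_ite_eq']
  by_cases h : Odd (n.factorization q)
  · have hq : q ∈ n.primeFactors := by
      rw [← Nat.support_factorization, Finsupp.mem_support_iff]
      intro h0
      rw [h0] at h
      exact absurd h (by decide)
    rw [if_pos (Finset.mem_filter.2 ⟨hq, h⟩), Nat.odd_iff.1 h]
  · have h3 : q ∉ n.primeFactors.filter (fun q => Odd (n.factorization q)) :=
      fun h2 => h (Finset.mem_filter.1 h2).2
    rw [if_neg h3]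
    exact (Nat.even_iff.1 (Nat.not_odd_iff_even.1 h)).symm

theorem SQA_pos (n : ℕ) : 1 ≤ sfp n := by
  apply Nat.one_le_iff_ne_zero.2
  unfold sfp
  rw [Finset.prod_ne_zero_iff]
  intro x hx
  exact (Nat.prime_of_mem_primeFactors (Finset.mem_filter.1 hx).1).ne_zero

theorem SQA_sf (n : ℕ) : Squarefree (sfp n) := by
  rw [Nat.squarefree_iff_factorization_le_one (Nat.one_le_iff_ne_zero.1 (SQA_pos n))]
  intro p
  rw [SQA_fac]
  omega

theorem SQA_sq (n : ℕ) (hn : 1 ≤ n) : ∃ u : ℕ, 1 ≤ u ∧ n = sfp n * u ^ 2 := by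
  have hn0 : n ≠ 0 := by omega
  set f : ℕ →₀ ℕ := n.factorization.mapRange (fun e => e / 2) rfl with hf
  have hfs : ∀ p ∈ f.support, p.Prime := by
    intro p hp
    rw [Finsupp.mem_support_iff, hf, Finsupp.mapRange_apply] at hp
    by_contra hcon
    apply hp
    rw [Nat.factorization_eq_zero_of_not_prime n hcon]
    rfl
  set u : ℕ := f.prod (fun p e => p ^ e) with hu
  have hfac : u.factorization = f := Nat.prod_pow_factorization_eq_self hfs
  have hu0 : u ≠ 0 := by
    rw [hu, Finsupp.prod, Finset.prod_ne_zero_iff]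
    intro p hp
    exact pow_ne_zero _ (hfs p hp).ne_zero
  have hs0 : sfp n ≠ 0 := Nat.one_le_iff_ne_zero.1 (SQA_pos n)
  refine ⟨u, Nat.one_le_iff_ne_zero.2 hu0, ?_⟩
  apply Nat.eq_of_factorization_eq hn0 (mul_ne_zero hs0 (pow_ne_zero _ hu0))
  intro p
  rw [Nat.factorization_mul hs0 (pow_ne_zero _ hu0), Finsupp.add_apply, Nat.factorization_pow,
    Finsupp.smul_apply, hfac, SQA_fac, hf, Finsupp.mapRange_apply, smul_eq_mul]
  omega

theorem SQA_dvd (n q : ℕ) (hq : q.Prime) : q ∣ sfp n ↔ Odd (n.factorization q) := by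
  have hs0 : sfp n ≠ 0 := Nat.one_le_iff_ne_zero.1 (SQA_pos n)
  rw [hq.dvd_iff_one_le_factorization hs0, SQA_fac, Nat.odd_iff]
  omega

theorem SQA : SQA_stmt := by
  refine ⟨fun n => ⟨SQA_pos n, SQA_sf n, SQA_sq n⟩, ?_⟩
  intro L n h0 hsq j
  have hprod : ∏ p ∈ (sfp (n j)).primeFactors, p = sfp (n j) :=
    Nat.prod_primeFactors_of_squarefree (SQA_sf (n j))
  have key : ∀ q ∈ (sfp (n j)).primeFactors, q ∣ Nat.gcd (sfp (n j)) (∏ i ∈ Iio j, sfp (n i)) *
      Nat.gcd (sfp (n j)) (∏ i ∈ Ioi j, sfp (n i)) := by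
    intro q hq
    have hqp : q.Prime := Nat.prime_of_mem_primeFactors hq
    have hqd : q ∣ sfp (n j) := Nat.dvd_of_mem_primeFactors hq
    have hodd := (SQA_dvd (n j) q hqp).1 hqd
    have hn0 : ∀ i ∈ (univ : Finset (Fin L)), n i ≠ 0 := by
      rw [Finset.prod_ne_zero_iff] at h0
      exact h0
    have heven : Even (∑ i, (n i).factorization q) := by
      obtain ⟨r, hr⟩ := hsq
      have h1 : (∏ i, n i).factorization q = ∑ i, (n i).factorization q :=
        Nat.factorization_prod_apply hn0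
      rw [← h1, hr]
      have hr0 : r ≠ 0 := by
        rintro rfl
        exact h0 (by rw [hr])
      rw [Nat.factorization_mul hr0 hr0, Finsupp.add_apply]
      exact ⟨_, rfl⟩
    have hex : ∃ i, i ≠ j ∧ Odd ((n i).factorization q) := by
      by_contra hcon
      push Not at hcon
      rw [← Finset.add_sum_erase univ (fun i => (n i).factorization q) (mem_univ j)] at heven
      have h2 : Even (∑ i ∈ univ.erase j, (n i).factorization q) := by
        apply Finset.even_sum
        intro i hi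
        exact Nat.not_odd_iff_even.1 (hcon i (Finset.ne_of_mem_erase hi))
      have h3 : Even ((n j).factorization q) := by
        rw [Nat.even_add] at heven
        exact heven.2 h2
      exact Nat.not_odd_iff_even.2 h3 hodd
    obtain ⟨i, hij, hi⟩ := hex
    have hqi : q ∣ sfp (n i) := (SQA_dvd (n i) q hqp).2 hi
    rcases lt_or_gt_of_ne hij with h | h
    · refine Dvd.dvd.mul_right ?_ _
      exact Nat.dvd_gcd hqd (hqi.trans (Finset.dvd_prod_of_mem (fun i => sfp (n i)) (Finset.mem_Iio.2 h)))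
    · refine Dvd.dvd.mul_left ?_ _
      exact Nat.dvd_gcd hqd (hqi.trans (Finset.dvd_prod_of_mem (fun i => sfp (n i)) (Finset.mem_Ioi.2 h)))
  have h := Finset.prod_primes_dvd (s := (sfp (n j)).primeFactors) (Nat.gcd (sfp (n j)) (∏ i ∈ Iio j, sfp (n i)) *
      Nat.gcd (sfp (n j)) (∏ i ∈ Ioi j, sfp (n i)))
    (fun q hq => (Nat.prime_of_mem_primeFactors hq).prime) key
  rw [hprod] at h
  exact h

end Pool.Agent.ASU
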