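import Pool.Agent.helper73.ASU.Spec

set_option autoImplicit false

namespace Pool.Agent.ASU

open Finset

theorem PVB8_mob (n : ℕ) : ∑ d ∈ n.divisors, ArithmeticFunction.moebius d = if n = 1 then 1 else 0 := by
  rw [← ArithmeticFunction.coe_mul_zeta_apply, ArithmeticFunction.moebius_mul_coe_zeta,
    ArithmeticFunction.one_apply]

/-- partial sums of a function with period 8 and mean 0 -/
theorem PVB8_per (g : ℕ → ℤ) (h8 : ∀ n, g (8 + n) = g n) (h0 : ∑ i ∈ range 8, g i = 0)
    (hb : ∀ n, |g n| ≤ 1) (M : ℕ) : |∑ i ∈ range M, g i| ≤ 8 := by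
  have hk : ∀ k r : ℕ, ∑ i ∈ range (8 * k + r), g i = ∑ i ∈ range r, g i := by
    intro k r
    induction k with
    | zero => simp
    | succ k ih =>
      have e : 8 * (k + 1) + r = 8 + (8 * k + r) := by ring
      rw [e, Finset.sum_range_add, h0, zero_add, Finset.sum_congr rfl (fun i _ => h8 i)]
      exact ih
  have h1 : ∑ i ∈ range M, g i = ∑ i ∈ range (M % 8), g i := by
    have h2 := hk (M / 8) (M % 8)
    rw [Nat.div_add_mod] at h2
    exact h2
  rw [h1]
  calc |∑ i ∈ range (M % 8), g i| ≤ ∑ i ∈ range (M % 8), |g i| := Finset.abs_sum_le_sum_abs _ _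
    _ ≤ ∑ i ∈ range (M % 8), (1 : ℤ) := Finset.sum_le_sum (fun i _ => hb i)
    _ ≤ 8 := by
      rw [Finset.sum_const, Finset.card_range, nsmul_eq_mul, mul_one]
      have : M % 8 < 8 := Nat.mod_lt _ (by norm_num)
      exact_mod_cast this.le

theorem PVB8_g (s : ℤ) (hs : s = -1 ∨ s = 2 ∨ s = -2) : ∃ g : ℕ → ℤ, (∀ n, g (8 + n) = g n) ∧
    ∑ i ∈ range 8, g i = 0 ∧ (∀ n, |g n| ≤ 1) ∧ ∀ n, g n = if Odd n then jacobiSym s n else 0 := by
  rcases hs with rfl | rfl | rfl
  · refine ⟨fun n => if n % 2 = 0 then 0 else if n % 4 = 1 then 1 else -1, ?_, ?_, ?_, ?_⟩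
    · intro n
      have e1 : (8 + n) % 2 = n % 2 := by omega
      have e2 : (8 + n) % 4 = n % 4 := by omega
      simp only [e1, e2]
    · decide
    · intro n
      dsimp only
      split_ifs <;> simp
    · intro n
      by_cases h : Odd n
      · rw [if_pos h, jacobiSym.at_neg_one h, ZMod.χ₄_nat_eq_if_mod_four]
      · rw [if_neg h]
        exact if_pos (Nat.even_iff.1 (Nat.not_odd_iff_even.1 h))
  · refine ⟨fun n => if n % 2 = 0 then 0 else if n % 8 = 1 ∨ n % 8 = 7 then 1 else -1, ?_, ?_, ?_, ?_⟩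
    · intro n
      have e1 : (8 + n) % 2 = n % 2 := by omega
      have e2 : (8 + n) % 8 = n % 8 := by omega
      simp only [e1, e2]
    · decide
    · intro n
      dsimp only
      split_ifs <;> simp
    · intro n
      by_cases h : Odd n
      · rw [if_pos h, jacobiSym.at_two h, ZMod.χ₈_nat_eq_if_mod_eight]
      · rw [if_neg h]
        exact if_pos (Nat.even_iff.1 (Nat.not_odd_iff_even.1 h))
  · refine ⟨fun n => if n % 2 = 0 then 0 else if n % 8 = 1 ∨ n % 8 = 3 then 1 else -1, ?_, ?_, ?_, ?_⟩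
    · intro n
      have e1 : (8 + n) % 2 = n % 2 := by omega
      have e2 : (8 + n) % 8 = n % 8 := by omega
      simp only [e1, e2]
    · decide
    · intro n
      dsimp only
      split_ifs <;> simp
    · intro n
      by_cases h : Odd n
      · rw [if_pos h, jacobiSym.at_neg_two h, ZMod.χ₈'_nat_eq_if_mod_eight]
      · rw [if_neg h]
        exact if_pos (Nat.even_iff.1 (Nat.not_odd_iff_even.1 h))

theorem PVB8_one (s : ℤ) (hs : s = -1 ∨ s = 2 ∨ s = -2) (Y : ℕ) :
    |∑ n ∈ (range (Y + 1)).filter Odd, jacobiSym s n| ≤ 8 := by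
  obtain ⟨g, h8, h0, hb, hg⟩ := PVB8_g s hs
  rw [Finset.sum_filter]
  have e : ∑ n ∈ range (Y + 1), (if Odd n then jacobiSym s n else 0) = ∑ n ∈ range (Y + 1), g n :=
    Finset.sum_congr rfl (fun n _ => (hg n).symm)
  rw [e]
  exact PVB8_per g h8 h0 hb (Y + 1)

theorem PVB8_f (s : ℤ) (hs : s = -1 ∨ s = 2 ∨ s = -2) (X f : ℕ) (hf : f ≠ 0) :
    |∑ n ∈ (range (X + 1)).filter Odd, (if f ∣ n then jacobiSym s n else 0)| ≤ 8 := by
  rw [← Finset.sum_filter]
  by_cases hfo : Odd f
  · have himg : ((range (X + 1)).filter Odd).filter (fun n => f ∣ n) =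
        ((range (X / f + 1)).filter Odd).image (fun n => f * n) := by
      ext n
      simp only [Finset.mem_filter, Finset.mem_range, Finset.mem_image]
      constructor
      · rintro ⟨⟨h1, h2⟩, ⟨c, hc⟩⟩
        refine ⟨c, ⟨?_, ?_⟩, hc.symm⟩
        · have : c ≤ X / f := by
            rw [Nat.le_div_iff_mul_le (Nat.pos_of_ne_zero hf)]
            rw [mul_comm, ← hc]
            omega
          omega
        · rw [hc] at h2
          exact (Nat.odd_mul.1 h2).2
      · rintro ⟨c, ⟨h1, h2⟩, rfl⟩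
        refine ⟨⟨?_, Nat.odd_mul.2 ⟨hfo, h2⟩⟩, dvd_mul_right f c⟩
        have h3 : c ≤ X / f := by omega
        rw [Nat.le_div_iff_mul_le (Nat.pos_of_ne_zero hf), mul_comm] at h3
        omega
    rw [himg, Finset.sum_image (fun a _ b _ hab => Nat.eq_of_mul_eq_mul_left (Nat.pos_of_ne_zero hf) hab)]
    have h4 : ∀ n ∈ (range (X / f + 1)).filter Odd, jacobiSym s (f * n) = jacobiSym s f * jacobiSym s n := by
      intro n hn
      have hn0 : n ≠ 0 := by
        rintro rfl
        exact absurd (Finset.mem_filter.1 hn).2 (by decide)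
      exact jacobiSym.mul_right' s hf hn0
    rw [Finset.sum_congr rfl h4, ← Finset.mul_sum, abs_mul]
    have h5 : |jacobiSym s f| ≤ 1 := by
      rcases jacobiSym.trichotomy s f with h | h | h <;> rw [h] <;> simp
    calc |jacobiSym s f| * |∑ n ∈ (range (X / f + 1)).filter Odd, jacobiSym s n| ≤ 1 * 8 :=
          mul_le_mul h5 (PVB8_one s hs (X / f)) (abs_nonneg _) (by norm_num)
      _ = 8 := by norm_num
  · have hemp : ((range (X + 1)).filter Odd).filter (fun n => f ∣ n) = ∅ := by
      apply Finset.filter_eq_empty_iff.2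
      intro n hn hd
      apply hfo
      exact Odd.of_dvd_nat (Finset.mem_filter.1 hn).2 hd
    rw [hemp]
    simp

theorem PVB8 : PVB8_stmt := by
  intro m s hs hm X
  unfold JS
  have hm0 : m ≠ 0 := by omega
  have key : ∀ n ∈ (range (X + 1)).filter Odd, jacobiSym (s * (m : ℤ) ^ 2) n =
      ∑ f ∈ m.divisors, ArithmeticFunction.moebius f * (if f ∣ n then jacobiSym s n else 0) := by
    intro n hn
    have hodd := (Finset.mem_filter.1 hn).2
    have hn0 : n ≠ 0 := by
      rintro rfl
      exact absurd hodd (by decide)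
    rw [jacobiSym.mul_left]
    have h1 : jacobiSym ((m : ℤ) ^ 2) n = if Nat.gcd m n = 1 then 1 else 0 := by
      by_cases hg : Nat.gcd m n = 1
      · rw [if_pos hg]
        exact jacobiSym.sq_one' (by rw [Int.gcd_natCast_natCast]; exact hg)
      · rw [if_neg hg, jacobiSym.pow_left]
        have h2 : jacobiSym (m : ℤ) n = 0 := by
          rw [jacobiSym.eq_zero_iff]
          exact ⟨hn0, by rw [Int.gcd_natCast_natCast]; exact hg⟩
        rw [h2]
        norm_num
    rw [h1, ← PVB8_mob]
    have h3 : (Nat.gcd m n).divisors = m.divisors.filter (fun f => f ∣ n) := by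
      ext f
      simp only [Finset.mem_filter, Nat.mem_divisors]
      constructor
      · rintro ⟨h4, -⟩
        exact ⟨⟨h4.trans (Nat.gcd_dvd_left m n), hm0⟩, h4.trans (Nat.gcd_dvd_right m n)⟩
      · rintro ⟨⟨h4, -⟩, h5⟩
        exact ⟨Nat.dvd_gcd h4 h5, Nat.gcd_ne_zero_left hm0⟩
    rw [h3, Finset.mul_sum, Finset.sum_filter]
    refine Finset.sum_congr rfl (fun f _ => ?_)
    by_cases hf : f ∣ n
    · rw [if_pos hf, if_pos hf, mul_comm]
    · rw [if_neg hf, if_neg hf, mul_zero]
  rw [Finset.sum_congr rfl key, Finset.sum_comm]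
  calc |∑ f ∈ m.divisors, ∑ n ∈ (range (X + 1)).filter Odd,
        ArithmeticFunction.moebius f * (if f ∣ n then jacobiSym s n else 0)|
      ≤ ∑ f ∈ m.divisors, |∑ n ∈ (range (X + 1)).filter Odd,
        ArithmeticFunction.moebius f * (if f ∣ n then jacobiSym s n else 0)| :=
        Finset.abs_sum_le_sum_abs _ _
    _ ≤ ∑ f ∈ m.divisors, (8 : ℤ) := by
        refine Finset.sum_le_sum (fun f hf => ?_)
        rw [← Finset.mul_sum, abs_mul]
        have hf0 : f ≠ 0 := by
          rintro rfl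
          have := (Nat.mem_divisors.1 hf).1
          exact hm0 (Nat.eq_zero_of_zero_dvd this)
        calc |ArithmeticFunction.moebius f| * |∑ n ∈ (range (X + 1)).filter Odd,
              (if f ∣ n then jacobiSym s n else 0)| ≤ 1 * 8 :=
              mul_le_mul ArithmeticFunction.abs_moebius_le_one (PVB8_f s hs X f hf0) (abs_nonneg _)
                (by norm_num)
          _ = 8 := by norm_num
    _ = 8 * (m.divisors.card : ℤ) := by
        rw [Finset.sum_const, nsmul_eq_mul, mul_comm]

end Pool.Agent.ASU
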